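import Pool.Agent.Q4.Curr.Main

namespace Pool.Agent.Results.MP_521103_al.MultiplicativeExtension

open Q4.Curr

universe u w

/-- Let `A` be a non-unital (commutative, involutive) continuous inverse algebra and let a bounded
unitary representation of `su₂ ⊗ A_ℝ` on a Hilbert space be given through its complex linear
extension `e, f, h`. Let `v ≠ 0` be a vector killed by all `π(a e)` with `π(a h) v = lam(a) v` for
all `a`. Then `e^a ↦ e^{lam(a)}` extends to a holomorphic multiplicative map on `1 + A`. -/
theorem result {A : Type u} [NonUnitalCommRing A] [StarRing A] [Module ℂ A]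
    [IsScalarTower ℂ A A] [SMulCommClass ℂ A A] [TopologicalSpace A] [ContinuousSMul ℂ A]
    (hA : IsNonUnitalCia A)
    {H : Type w} [NormedAddCommGroup H] [InnerProductSpace ℂ H] [CompleteSpace H]
    (e f h : A →L[ℂ] (H →L[ℂ] H)) (hπ : IsBoundedUnitaryRep e f h)
    (v : H) (hv : v ≠ 0) (hev : ∀ a, e a v = 0) (lam : A → ℂ) (hlam : ∀ a, h a v = lam a • v) :
    ∃ F : Unitization ℂ A → ℂ,
      (∀ a b : A, F ((1 + a) * (1 + b)) = F (1 + a) * F (1 + b)) ∧
      (Continuous fun a : A => F (1 + a)) ∧
      (∀ a b : A, Differentiable ℂ fun t : ℂ => F (1 + (a + t • b : A))) ∧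
      ∀ (a : A) (x : Unitization ℂ A), ExpEq a x → F x = Complex.exp (lam a) :=
  main hA hπ v hv hev lam hlam

end Pool.Agent.Results.MP_521103_al.MultiplicativeExtension
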